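import Pool.Agent.H21.Leh.Main

/-!
# Lehmer's inequality for abelian extensions of the rationals and of quadratic fields

Let `k` be the field of rational numbers or a quadratic field, and `L` an abelian extension of `k`,
finite or infinite. Every non-zero integer polynomial with a root in `L` which is neither zero nor a
root of unity has Mahler measure at least `2 ^ (1 / 4) = 1.1892...`, hence larger than the Mahler
measure of Lehmer's polynomial.

The proof compares, in the field `k(α)`, suitable powers of `α` with powers of a conjugate of `α`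
(or of `1`) modulo powers of the product of the primes above one prime of `k` above `2`.
-/

open Polynomial N60ffa576

namespace Pool.Agent.Results.MP_dc0c68_nt.AbelianOverQuadratic

open Pool.Agent.H21.Leh Pool.Agent.H25

theorem result (k : Type*) [Field k] [NumberField k] (hk : Module.finrank ℚ k ≤ 2)
    (L : Type*) [Field L] [Algebra k L] [IsAbelianGalois k L]
    (f : ℤ[X]) (hf : f ≠ 0) (α : L) (hfα : aeval α f = 0) (h0 : α ≠ 0)
    (h1 : ∀ m : ℕ, 0 < m → α ^ m ≠ 1) :
    (2 : ℝ) ^ (1 / 4 : ℝ) ≤ mahlerMeasureZ f ∧
      mahlerMeasureZ lehmerPolynomial < mahlerMeasureZ f := by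
  have : CharZero L := charZero_of_injective_algebraMap (algebraMap k L).injective
  have h := main hk f hf α hfα h0 h1
  have hM := mmZ_nonneg f
  refine ⟨?_, lehmer_lt hM h⟩
  calc (2 : ℝ) ^ (1 / 4 : ℝ) ≤ (mahlerMeasureZ f ^ 4) ^ (1 / 4 : ℝ) :=
        Real.rpow_le_rpow (by norm_num) h (by norm_num)
    _ = mahlerMeasureZ f := by
        have h2 := Real.pow_rpow_inv_natCast (n := 4) hM (by norm_num)
        rw [one_div]
        exact_mod_cast h2

end Pool.Agent.Results.MP_dc0c68_nt.AbelianOverQuadratic
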