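import Pool.Agent.H25.AbDeg.Main

/-!
# Lehmer's inequality for numbers of degree at most three over an abelian field

Let `K` be an abelian extension of the field of rational numbers, finite or infinite, and let `α` be
an element of an extension of `K` which is neither zero nor a root of unity and which has degree at
most three over `K`. Every non-zero integer polynomial which has the root `α` has Mahler measure at
least `2 ^ (1 / 4) = 1.1892...`, hence larger than the Mahler measure of Lehmer's polynomial.

The case of degree two contains all Salem numbers whose trace field is abelian, see the second part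
of the statement.

The proof works with the coefficients of the minimal polynomial of `α` over the field `k` which they
generate. For `p = 5` (degree two) or `p = 23` (degree three) these coefficients are compared with
their images under a Frobenius element or an element of the inertia group at `p` of `k`, and the
congruence is lifted to the coefficients of the polynomials whose roots are the `p ^ i`-th powers.
-/

open Polynomial N60ffa576 IntermediateField

namespace Pool.Agent.Results.MP_dc0c68_nt.DegreeThreeOverAbelian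

open Pool.Agent.H21.Leh Pool.Agent.H25 Pool.Agent.H25.AbDeg

/-- Two forms of the conclusion. -/
lemma finish {M : ℝ} (hM : 0 ≤ M) (h : 2 ≤ M ^ 4) :
    (2 : ℝ) ^ (1 / 4 : ℝ) ≤ M ∧ mahlerMeasureZ lehmerPolynomial < M := by
  refine ⟨?_, lehmer_lt hM h⟩
  calc (2 : ℝ) ^ (1 / 4 : ℝ) ≤ (M ^ 4) ^ (1 / 4 : ℝ) :=
        Real.rpow_le_rpow (by norm_num) h (by norm_num)
    _ = M := by
        have h2 := Real.pow_rpow_inv_natCast (n := 4) hM (by norm_num)
        rw [one_div]
        exact_mod_cast h2

/-- The degree of a number over the field generated by the sum of the number and its inverse. -/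
lemma trace_deg (α : ℂ) (h0 : α ≠ 0) : (minpoly ℚ⟮α + α⁻¹⟯ α).natDegree ≤ 2 := by
  set s : ℚ⟮α + α⁻¹⟯ := AdjoinSimple.gen ℚ (α + α⁻¹) with hs
  have hs' : algebraMap ℚ⟮α + α⁻¹⟯ ℂ s = α + α⁻¹ := rfl
  have h1 : aeval α (X ^ 2 - C s * X + 1) = 0 := by
    rw [map_add, map_sub, map_mul, map_pow, aeval_X, aeval_C, map_one, hs']
    field_simp
    ring
  have h2 : (X ^ 2 - C s * X + 1 : ℚ⟮α + α⁻¹⟯[X]).natDegree = 2 := by
    compute_degree!
  have h3 : (X ^ 2 - C s * X + 1 : ℚ⟮α + α⁻¹⟯[X]) ≠ 0 := by
    intro h
    rw [h, natDegree_zero] at h2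
    exact absurd h2 (by norm_num)
  rw [← h2]
  exact natDegree_le_of_dvd (minpoly.dvd _ α h1) h3

theorem result :
    (∀ (K : Type*) [Field K] [CharZero K] [IsAbelianGalois ℚ K] (L : Type*) [Field L] [Algebra K L]
      (f : ℤ[X]), f ≠ 0 → ∀ α : L, aeval α f = 0 → α ≠ 0 → (∀ m : ℕ, 0 < m → α ^ m ≠ 1) →
      (minpoly K α).natDegree ≤ 3 →
      (2 : ℝ) ^ (1 / 4 : ℝ) ≤ mahlerMeasureZ f ∧
        mahlerMeasureZ lehmerPolynomial < mahlerMeasureZ f) ∧
    (∀ f : ℤ[X], f ≠ 0 → ∀ α : ℂ, aeval α f = 0 → α ≠ 0 → (∀ m : ℕ, 0 < m → α ^ m ≠ 1) →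
      IsAbelianGalois ℚ ℚ⟮α + α⁻¹⟯ →
      (2 : ℝ) ^ (1 / 4 : ℝ) ≤ mahlerMeasureZ f ∧
        mahlerMeasureZ lehmerPolynomial < mahlerMeasureZ f) := by
  constructor
  · intro K _ _ _ L _ _ f hf α hfα h0 h1 hdeg
    have : CharZero L := charZero_of_injective_algebraMap (algebraMap K L).injective
    exact finish (mmZ_nonneg f) (main3 (K := K) f hf α hfα h0 h1 hdeg)
  · intro f hf α hfα h0 h1 hab
    exact finish (mmZ_nonneg f) (main3 (K := ℚ⟮α + α⁻¹⟯) f hf α hfα h0 h1
      ((trace_deg α h0).trans (by norm_num)))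

end Pool.Agent.Results.MP_dc0c68_nt.DegreeThreeOverAbelian
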