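import Mathlib
import Pool.Agent.H25.Five

/-!
Lehmer's inequality with Lehmer's constant for every integer polynomial that has, possibly after
multiplication by a polynomial of Mahler measure one, at most five non-zero coefficients; the
constant is attained in this class.
-/

set_option autoImplicit false

open Polynomial N60ffa576

namespace Pool.Agent.Results.MP_dc0c68_nt.FiveTerms

open Pool.Agent.H25

lemma sharp_measure :
    mahlerMeasureZ (X ^ 12 + X ^ 7 - X ^ 6 + X ^ 5 + 1) = mahlerMeasureZ lehmerPolynomial := by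
  have hX3 := mm_X_pow_sub_one 3 (by norm_num)
  have hne : (X ^ 2 + X + 1 : ℤ[X]) ≠ 0 := by
    intro h; have := congrArg (fun p => p.coeff 0) h; simp at this
  have h1 : mahlerMeasureZ (X ^ 2 + X + 1) = 1 :=
    mm_one_of_mul (g := X - 1) (h := X ^ 3 - 1) (by ring) hX3 hne (X_sub_C_ne_zero 1)
  have e : (X ^ 12 + X ^ 7 - X ^ 6 + X ^ 5 + 1 : ℤ[X]) =
      lehmerPolynomial.comp (-X) * (X ^ 2 + X + 1) := by
    unfold lehmerPolynomial; simp; ring
  rw [e, mmZ_mul, mm_neg, h1, mul_one]

lemma sharp_card : (X ^ 12 + X ^ 7 - X ^ 6 + X ^ 5 + 1 : ℤ[X]).support.card = 5 := by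
  have e : (X ^ 12 + X ^ 7 - X ^ 6 + X ^ 5 + 1 : ℤ[X]).support = {0, 5, 6, 7, 12} := by
    ext i
    rw [mem_support_iff, coeff_add, coeff_add, coeff_sub, coeff_add, coeff_X_pow, coeff_X_pow,
      coeff_X_pow, coeff_X_pow, coeff_one]
    simp only [Finset.mem_insert, Finset.mem_singleton]
    by_cases h0 : i = 0
    · subst h0; norm_num
    by_cases h5 : i = 5
    · subst h5; norm_num
    by_cases h6 : i = 6
    · subst h6; norm_num
    by_cases h7 : i = 7
    · subst h7; norm_num
    by_cases h12 : i = 12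
    · subst h12; norm_num
    simp [h0, h5, h6, h7, h12]
  rw [e]
  rfl

theorem result :
    (∀ f Φ : ℤ[X], mahlerMeasureZ Φ = 1 → (Φ * f).support.card ≤ 5 → 1 < mahlerMeasureZ f →
      mahlerMeasureZ lehmerPolynomial ≤ mahlerMeasureZ f) ∧
    (∃ f : ℤ[X], f.support.card = 5 ∧
      mahlerMeasureZ f = mahlerMeasureZ lehmerPolynomial) := by
  refine ⟨?_, X ^ 12 + X ^ 7 - X ^ 6 + X ^ 5 + 1, sharp_card, sharp_measure⟩
  intro f Φ hΦ hcard hM
  have hf : f ≠ 0 := by
    rintro rfl
    rw [mmZ_zero] at hM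
    linarith
  have hΦ0 : Φ ≠ 0 := by
    rintro rfl
    rw [mmZ_zero] at hΦ
    norm_num at hΦ
  have h := five_terms (Φ * f).natDegree (Φ * f) le_rfl (mul_ne_zero hΦ0 hf) hcard
  have e : mahlerMeasureZ (Φ * f) = mahlerMeasureZ f := by rw [mmZ_mul, hΦ, one_mul]
  unfold Good at h
  rw [e] at h
  rcases h with h | h
  · linarith
  · exact h

end Pool.Agent.Results.MP_dc0c68_nt.FiveTerms
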