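import Pool.Agent.H25.Lp.Main

/-!
# CAT(0) groups with nonzero first `ℓ^p`-cohomology contain rank-one isometries

Let the nonamenable group `G` act geometrically on a locally compact CAT(0) space `X` (geodesic
completeness and irreducibility are not needed). If the first `ℓ^p`-cohomology of `G` is not zero for
some real `p ≥ 1`, then `G` contains a rank-one isometry of `X`.

Sketch of the proof. Fix `x ∈ X`, write `|g| = d(x, gx)`, let `B_n` be the ball of radius `n` in `G`. Assume
that `G` has no rank-one isometry, and let `f : G → ℝ` have finite `p`-energy.

* For every long `k ∈ G` there is a segment `[u,v]` missing the ball `B(x,T)` whose ends have (seen from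
  `x`, at radius `T`) the directions of `k⁻¹x` and `kx` (`Bet/Gate.lean`, `Sector.lean`).
* Project `[u,v]` radially to the sphere of radius `t`, `t² ≤ T`. The image has length at most `π t`, and
  the image `w` of a point at distance `b` from the point `z` of `[u,v]` nearest to `x` satisfies
  `d(w,y) ≤ |y| - c + 2`, where `y = kx` or `k⁻¹x` and `c` is about `min(b, t)/4`, suitably scaled
  (`Label.lean`, `Half.lean`).
* `G` is not amenable, so for given `w` at most the fraction `C θ^c` of the `k ∈ B_n` satisfies this, where
  `θ < 1` (`Grow.lean`), whereas at most `C (m+1)` points of the chain have `c ≤ m`. So the chains for all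
  `k ∈ B_n` together use the energy outside a large ball economically: on average over `B_n` the difference
  `|f(k) - f(k⁻¹)|` tends to `0` (`Weight.lean`, `AvgR.lean`, `AvgH.lean`, `Inv.lean`).
* Right translations hardly change `f` far out, so on average `f(hk)` is close to `f(k)` for every `h`; and
  `f(g)` is close to the average of `f(gk)` if `g` is far out. Hence `f` has a limit `a` at infinity
  (`Left.lean`, `Lim.lean`).
* By the Sobolev inequality of the nonamenable group `G`, `f - a` is `p`-summable (`Sob.lean`).
-/

open Set

namespace Pool.Agent.H25.Kept.NonzeroLpCohomology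

open Pool.Agent.H29 Pool.Agent.H25.Lp

/-- The space `X` is CAT(0) and locally compact; the nonamenable group `G` acts on it by isometries,
properly discontinuously and cocompactly; `p ≥ 1` is a real number and `f` is a function on `G` such that
all differences `f(·h) - f` are `p`-summable but no `f - c` is (that is, the first cohomology of `G`
with coefficients in the regular representation on `ℓ^p(G)` does not vanish). Then some element
of `G` is a rank-one isometry of `X`. -/
theorem result {G : Type*} {X : Type*} [Group G] [MetricSpace X] [IsCAT0 X]
    [LocallyCompactSpace X] [Nonempty X] [MulAction G X] [IsIsometricSMul G X]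
    [ProperlyDiscontinuousSMul G X] (hcoc : Cocompact G X) (hna : NonAmen G)
    {p : ℝ} (hp : 1 ≤ p) (f : G → ℝ) (hf : ∀ h : G, Summable fun g => |f (g * h) - f g| ^ p)
    (hne : ∀ c : ℝ, ¬ Summable fun g => |f g - c| ^ p) :
    ∃ g : G, IsRankOne (X := X) g :=
  Pool.Agent.H25.Lp.rankOne_of_lp hcoc hna hp f hf hne

end Pool.Agent.H25.Kept.NonzeroLpCohomology
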