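import Pool.Agent.H25.Bet.Main

/-!
# CAT(0) groups with positive first `ℓ²`-Betti number contain rank-one isometries

Let `G` act geometrically on a locally compact CAT(0) space `X` (geodesic completeness and
irreducibility are not needed). If the Cayley graph of `G` with respect to a finite symmetric
generating set carries a nonconstant harmonic function of finite Dirichlet energy, then `G` contains
a rank-one isometry of `X`.

Sketch of the proof. Fix `x ∈ X` and let `c_u(t)` be the point at distance `t` from `x` on `[x,u]`.

* If `[u,v]` misses the ball `B(x,t)`, its radial projection is a curve of length at most `π t` in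
  the sphere `S(x,t)` from `c_u(t)` to `c_v(t)` (`Curve.lean`: the comparison angles at the
  division points add up to at least `π`, so those at `x` add up to at most `π`).
* Suppose that all `[u,v]` with `u` near `g⁻¹x` and `v` near `gx` (seen from `x` at radius `T`) meet
  `B(x,T)`. If `g` moves `x` far enough, then `g` is a rank-one isometry (`Gate.lean`).
* Hence, if `G` has no rank-one isometry, a function of the direction which hardly changes along
  segments missing `B(x,T)` is nearly constant on the far part of the orbit (`Closing.lean`).
* Let `E(g,h)` represent the functional `f(h) - f(g)` on the Hilbert space of harmonic functions of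
  finite energy modulo constants. Logarithmic averages `A_N(u)` of `E(1, c_u(t))` over `t ≤ N` are
  such functions with `ε → 0`, because curves of length `≤ π t` in the spheres of radius `t`, with
  the weight `1/(t log N)`, have energy `O(1/log N)` (`Flow.lean`, `AvgB.lean`).
* So `E(1,s) = a - s a + o(1)` for the generators `s`, and harmonicity gives
  `∑ ‖E(1,s)‖² = ∑ ⟪E(1,s), a - s a⟫ + o(1) = o(1)`, that is, every harmonic function of finite
  energy is constant (`Cob.lean`, `HilbA.lean`).
-/

open Set

namespace Pool.Agent.H25.Kept.PositiveL2Betti

open Pool.Agent.H29

/-- The space `X` is CAT(0) and locally compact; `G` acts on it by isometries, properly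
discontinuously and cocompactly; `S` is a finite symmetric generating set of `G`, and `f` is a
nonconstant harmonic function of finite Dirichlet energy on the Cayley graph of `G` with respect to
`S` (its existence means that the first `ℓ²`-Betti number of `G` is positive). Then some element
of `G` is a rank-one isometry of `X`. -/
theorem result {G : Type*} {X : Type*} [Group G] [MetricSpace X] [IsCAT0 X]
    [LocallyCompactSpace X] [Nonempty X] [MulAction G X] [IsIsometricSMul G X]
    [ProperlyDiscontinuousSMul G X] (hcoc : Cocompact G X)
    (S : Finset G) (hS : Subgroup.closure (S : Set G) = ⊤) (hsymm : ∀ s ∈ S, s⁻¹ ∈ S)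
    (f : G → ℝ) (hharm : ∀ g, ∑ s ∈ S, f (g * s) = S.card * f g)
    (hfin : Summable fun g => ∑ s ∈ S, (f (g * s) - f g) ^ 2) (hne : ∃ g h, f g ≠ f h) :
    ∃ g : G, IsRankOne (X := X) g :=
  Pool.Agent.H25.Bet.rankOne_of_harmonic hcoc S hS hsymm f hharm hfin hne

end Pool.Agent.H25.Kept.PositiveL2Betti
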