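import Pool.Agent.H25.AD.SolvThm

/-!
# Lehmer's problem for solvable Galois groups

* There are absolute constants `c, δ > 0` with the following property. Let `K` be a Galois number field, `N` a solvable normal subgroup of its Galois group, and `α` a unit
  of `K`, such that `N` contains an `s` for which neither `s(α)/α` nor `s(α)α` is a root of unity, or such that `N` is the whole group and `α` is not a root of unity.
  Then `log M(α) ≥ c d ^ δ` for some degree `d` of a field `ℚ(α ^ k)`, `k ≥ 1`.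
* The Mahler measures of the polynomials in `ℤ[X]` with solvable Galois group, leading coefficient `± 1` and constant coefficient `± 1` form a discrete closed set: finitely many
  in each bounded interval.
* There is an absolute constant `c > 1` such that `M(f) ≥ c` for all `f ∈ ℤ[X]` with solvable Galois group and `M(f) > 1`.

The proof uses a quantitative form of the theorem of Amoroso and David on heights in several dimensions, proved from scratch, and group theory.
-/

set_option autoImplicit false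

open Polynomial

namespace Pool.Agent.Results.MP_dc0c68_nt.SolvableGalois

/-- The Mahler measure of an integer polynomial. -/
noncomputable def mahler (f : ℤ[X]) : ℝ := (f.map (Int.castRingHom ℂ)).mahlerMeasure

/-- The Galois group of `f` over `ℚ` is solvable. -/
def Solv (f : ℤ[X]) : Prop := Group.IsSolvable (f.map (Int.castRingHom ℚ)).Gal

/-- The subgroup `N` contains an `s` such that neither `s α / α` nor `s α * α` is a root of unity, or `N` is the whole Galois group and `α` is not a root of unity. -/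
def Moves {K : Type} [Field K] [NumberField K] (N : Subgroup (K ≃ₐ[ℚ] K)) (α : K) : Prop :=
  (∃ s ∈ N, (∀ k : ℕ, 0 < k → (s α) ^ k ≠ α ^ k) ∧ (∀ k : ℕ, 0 < k → (s α * α) ^ k ≠ 1)) ∨
    (N = ⊤ ∧ ∀ k : ℕ, 0 < k → α ^ k ≠ 1)

theorem result :
    (∃ c δ : ℝ, 0 < c ∧ 0 < δ ∧
      ∀ (K : Type) [Field K] [NumberField K] [IsGalois ℚ K] (N : Subgroup (K ≃ₐ[ℚ] K)) (α : K),
        N.Normal → Group.IsSolvable N → α ≠ 0 → IsIntegral ℤ α → IsIntegral ℤ α⁻¹ → Moves N α →
        ∃ k : ℕ, 0 < k ∧ c * (Module.finrank ℚ (IntermediateField.adjoin ℚ {α ^ k}) : ℝ) ^ δ ≤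
          Real.log (mahler (minpoly ℤ α))) ∧
    (∀ B : ℝ, {x : ℝ | x ≤ B ∧
      ∃ f : ℤ[X], Solv f ∧ |f.leadingCoeff| = 1 ∧ |f.coeff 0| = 1 ∧ mahler f = x}.Finite) ∧
    ∃ c : ℝ, 1 < c ∧ ∀ f : ℤ[X], Solv f → 1 < mahler f → c ≤ mahler f := by
  refine ⟨?_, ?_, ?_⟩
  · obtain ⟨c, δ, hc, hδ, H⟩ := H25.solv_quant'
    refine ⟨c, δ, hc, hδ, ?_⟩
    intro K _ _ _ N α hN hNs h0 h1 h2 hmov
    refine H K N α hN hNs ⟨h1, h2, h0⟩ ?_
    rcases hmov with ⟨s, hs, h3, h4⟩ | ⟨h3, h4⟩
    · exact Or.inl ⟨s, hs, H25.not_tors_div h0 h3, H25.not_tors_of h4⟩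
    · exact Or.inr ⟨h3, H25.not_tors_of h4⟩
  · intro B
    refine (H25.solv_discrete B).subset ?_
    rintro x ⟨hx, f, h1, h2, h3, h4⟩
    exact ⟨hx, f, ⟨h1, h2, h3⟩, h4⟩
  · exact H25.solv_const

end Pool.Agent.Results.MP_dc0c68_nt.SolvableGalois
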