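import Pool.Agent.H21.Leh.SplitMain

/-!
# Lehmer's inequality for polynomials that split over a field with at most 13 elements

Let `F` be a finite field with at most thirteen elements. Every integer polynomial whose reduction
splits into linear factors over `F` has Mahler measure `0`, `1`, or greater than the measure of
Lehmer's polynomial.

The proof bounds from below the `p`-adic valuation of the resultants of `f` with the polynomials
`X ^ (T * p ^ k) - 1` and `X ^ (T * p ^ k) + 1`, `T` dividing `#F - 1`, in terms of the
multiplicities of the roots of `f` in `F`, and compares all scales `k`.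
-/

set_option autoImplicit false

open Polynomial N60ffa576

namespace Pool.Agent.Results.MP_dc0c68_nt.SplitSmallField

open Pool.Agent.H21.Leh Pool.Agent.H25

theorem result (F : Type*) [Field F] [Finite F] (hF : Nat.card F ≤ 13)
    (f : ℤ[X]) (hs : (f.map (Int.castRingHom F)).Splits) (hM : 1 < mahlerMeasureZ f) :
    mahlerMeasureZ lehmerPolynomial < mahlerMeasureZ f := by
  have := Fintype.ofFinite F
  rw [Nat.card_eq_fintype_card] at hF
  exact lehmer_lt64 (mmZ_nonneg f) (split_main hF f hs hM)

end Pool.Agent.Results.MP_dc0c68_nt.SplitSmallField
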